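import Pool.Agent.Y951.SQ.Stm

/-!
# Stark's conjecture up to sign: from finite groups to profinite groups (task PROF)
-/

set_option autoImplicit false

namespace Pool.Agent.Y514.SQ

open Pool.Agent.Y144.DL Pool.Agent.Y691.ST Pool.Agent.Y951.SE Pool.Agent.Y951.SQ

/-- a linear character which is trivial on `N` descends to the image -/
lemma descend {G : Type} [Group G] (N : Subgroup G) [N.Normal] (V : Subgroup G) (f : V →* ℂˣ)
    (hN : ∀ v : V, (v : G) ∈ N → f v = 1) :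
    ∃ f' : V.map (QuotientGroup.mk' N) →* ℂˣ, ∀ (g : G) (hg : g ∈ V)
      (hg' : QuotientGroup.mk' N g ∈ V.map (QuotientGroup.mk' N)),
      f' ⟨QuotientGroup.mk' N g, hg'⟩ = f ⟨g, hg⟩ := by
  classical
  have key : ∀ v w : V, QuotientGroup.mk' N v = QuotientGroup.mk' N w → f v = f w := by
    intro v w h
    have h1 : ((v⁻¹ * w : V) : G) ∈ N := QuotientGroup.eq.1 h
    have h2 := hN _ h1
    rw [map_mul, map_inv, inv_mul_eq_one] at h2
    exact h2
  choose s hs using fun q : V.map (QuotientGroup.mk' N) => q.2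
  refine ⟨MonoidHom.mk' (fun q => f ⟨s q, (hs q).1⟩) ?_, ?_⟩
  · intro a b
    rw [← map_mul]
    refine key _ _ ?_
    show QuotientGroup.mk' N (s (a * b)) = QuotientGroup.mk' N (s a * s b)
    rw [map_mul, (hs (a * b)).2, (hs a).2, (hs b).2]
    rfl
  · intro g hg hg'
    show f ⟨s ⟨QuotientGroup.mk' N g, hg'⟩, _⟩ = f ⟨g, hg⟩
    refine key _ _ ?_
    exact (hs ⟨QuotientGroup.mk' N g, hg'⟩).2

lemma indF_congr {G : Type} [Group G] [TopologicalSpace G] {V V' : Subgroup G} (h : V = V')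
    (f : V →* ℂˣ) (f' : V' →* ℂˣ)
    (hf : ∀ (g : G) (hg : g ∈ V) (hg' : g ∈ V'), f ⟨g, hg⟩ = f' ⟨g, hg'⟩) :
    indF V f = indF V' f' := by
  subst h
  have : f = f' := MonoidHom.ext fun v => hf v.1 v.2 v.2
  rw [this]

theorem t_PROF : S_PROF := by
  classical
  intro hfin G _ _ _ _ _ _ c hcc d hd good e₀ he₀ he2 hec hWA U χ hUχ hχj
  obtain ⟨j, hj⟩ := hχj
  obtain ⟨hU, hχo⟩ := hUχ
  -- the kernel of `χ ^ 2`
  let W₀ : Subgroup G := kerS U χ
  have hW₀ : IsOpen (W₀ : Set G) := by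
    have h1 : (W₀ : Set G) = {g : G | ∃ h : g ∈ U, χ ⟨g, h⟩ = 1} := by
      ext g
      exact mem_kerS
    rw [h1]
    exact hχo
  let W : Subgroup G := kerS U (χ ^ 2)
  have hW₀W : W₀ ≤ W := by
    intro g hg
    obtain ⟨h1, h2⟩ := mem_kerS.1 hg
    refine mem_kerS.2 ⟨h1, ?_⟩
    rw [MonoidHom.pow_apply, h2, one_pow]
  have hW : IsOpen (W : Set G) := isOpen_of_le hW₀ hW₀W
  have hWU : W ≤ U := kerS_le U (χ ^ 2)
  have hWmem : ∀ g : G, g ∈ U → g * g = 1 → g ∈ W := by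
    intro g hg h
    refine mem_kerS.2 ⟨hg, ?_⟩
    rw [MonoidHom.pow_apply, pow_two, ← map_mul]
    have h1 : (⟨g, hg⟩ : U) * ⟨g, hg⟩ = 1 := Subtype.ext h
    rw [h1, map_one]
  have hcsq : ∀ g : G, g * c * g⁻¹ * (g * c * g⁻¹) = 1 := by
    intro g
    have h2 : g * c * g⁻¹ * (g * c * g⁻¹) = g * (c * c) * g⁻¹ := by group
    rw [h2, hcc, mul_one, mul_inv_cancel]
  -- representatives of the right cosets of `U`
  let r : G → G := fun g => (Quotient.mk (QuotientGroup.rightRel U) g).out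
  have hr1 : ∀ g, g * (r g)⁻¹ ∈ U := by
    intro g
    have h1 : (QuotientGroup.rightRel U) (r g) g := Quotient.exact (Quotient.out_eq _)
    exact QuotientGroup.rightRel_apply.1 h1
  have hr2 : ∀ u ∈ U, ∀ g, r (u * g) = r g := by
    intro u hu g
    have h1 : Quotient.mk (QuotientGroup.rightRel U) (u * g) =
        Quotient.mk (QuotientGroup.rightRel U) g := by
      refine Quotient.sound ?_
      refine QuotientGroup.rightRel_apply.2 ?_
      have h2 : g * (u * g)⁻¹ = u⁻¹ := by group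
      rw [h2]
      exact U.inv_mem hu
    show (Quotient.mk (QuotientGroup.rightRel U) (u * g)).out = _
    rw [h1]
  let T : Set G := {g | g * (r g)⁻¹ ∈ W}
  obtain ⟨l, hl2, hlo, hl⟩ := hWA W hW T (by
    intro w hw g hg
    show w * g * (r (w * g))⁻¹ ∈ W
    rw [hr2 w (hWU hw) g, mul_assoc]
    exact W.mul_mem hw hg)
  -- a small normal subgroup
  have hlo' : IsOpen (Subtype.val '' {w : W | l w = 1}) := hW.isOpenMap_subtype_val _ hlo
  obtain ⟨N₀, hN₀⟩ := ProfiniteGrp.exist_openNormalSubgroup_sub_open_nhds_of_one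
    ((hW₀.inter hlo').inter he₀) ⟨⟨W₀.one_mem, ⟨1, map_one l, rfl⟩⟩, map_one e₀⟩
  let N : Subgroup G := N₀.toSubgroup
  have hN : IsOpen (N : Set G) := N₀.isOpen
  have hNn : N.Normal := N₀.isNormal'
  have hNW₀ : N ≤ W₀ := fun g hg => (hN₀ hg).1.1
  have hNW : N ≤ W := hNW₀.trans hW₀W
  have hNU : N ≤ U := hNW.trans hWU
  have hNχ : ∀ v : U, (v : G) ∈ N → χ v = 1 := by
    intro v hv
    obtain ⟨h1, h2⟩ := mem_kerS.1 (hNW₀ hv)
    exact h2
  have hNl : ∀ w : W, (w : G) ∈ N → l w = 1 := by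
    intro w hw
    obtain ⟨w', h1, h2⟩ := (hN₀ hw).1.2
    have h3 : w' = w := Subtype.ext h2
    rw [← h3]
    exact h1
  have hNe : ∀ g ∈ N, e₀ g = 1 := fun g hg => (hN₀ hg).2
  have hfinQ : Finite (G ⧸ N) := Subgroup.quotient_finite_of_isOpen N hN
  set π := QuotientGroup.mk' N with hπ
  have hsurj : Function.Surjective π := QuotientGroup.mk'_surjective N
  have hker : π.ker = N := QuotientGroup.ker_mk' N
  have hmem : ∀ (V : Subgroup G), N ≤ V → ∀ g, π g ∈ V.map π ↔ g ∈ V := by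
    intro V hV g
    rw [← Subgroup.mem_comap, Subgroup.comap_map_eq_self (by rw [hker]; exact hV)]
  let S : Set (G ⧸ N) := Set.range fun g : G => π (g * c * g⁻¹)
  let K : Subgroup (G ⧸ N) := U.map π
  obtain ⟨ψ, hψ⟩ := descend N U χ hNχ
  obtain ⟨l', hl'⟩ := descend N W l hNl
  -- the kernel of `ψ ^ 2`
  have hkW : ∀ g : G, π g ∈ kerS K (ψ ^ 2) ↔ g ∈ W := by
    intro g
    constructor
    · intro h
      obtain ⟨h1, h2⟩ := mem_kerS.1 h
      have hg : g ∈ U := (hmem U hNU g).1 h1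
      refine mem_kerS.2 ⟨hg, ?_⟩
      rw [MonoidHom.pow_apply] at h2 ⊢
      rw [← hψ g hg h1]
      exact h2
    · intro h
      obtain ⟨hg, h2⟩ := mem_kerS.1 h
      refine mem_kerS.2 ⟨(hmem U hNU g).2 hg, ?_⟩
      rw [MonoidHom.pow_apply] at h2 ⊢
      rw [hψ g hg]
      exact h2
  have hkle : kerS K (ψ ^ 2) ≤ W.map π := by
    intro q hq
    obtain ⟨g, rfl⟩ := hsurj q
    exact ⟨g, (hkW g).1 hq, rfl⟩
  let lb : kerS K (ψ ^ 2) →* ℂˣ := l'.comp (Subgroup.inclusion hkle)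
  have hlb : ∀ (g : G) (hg : g ∈ W) (hg' : π g ∈ kerS K (ψ ^ 2)), lb ⟨π g, hg'⟩ = l ⟨g, hg⟩ := by
    intro g hg hg'
    exact hl' g hg (hkle hg')
  -- the function on the finite quotient
  let Y : (G ⧸ N → ℂ) → ℂˣ := fun f => d (f ∘ π)
  have hY : ∀ θ θ', IsChar θ → IsChar θ' → Y (θ + θ') = Y θ * Y θ' := by
    intro θ θ' h h'
    exact hd.add _ _ (isArtin_comp hN h) (isArtin_comp hN h')
  have hG : ∀ (K : Subgroup (G ⧸ N)) (χ : K →* ℂˣ), (∀ s ∈ S, s ∉ K) → Y (ind K χ) = 1 := by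
    intro K χ hK
    show d (ind K χ ∘ π) = 1
    rw [hπ, ind_infl]
    refine good _ _ (isOpenLinear_infl hN K χ) fun g hg => hK _ ⟨g, rfl⟩ ?_
    exact hg
  have hQ : ∀ (K : Subgroup (G ⧸ N)) (χ : K →* ℂˣ), χ ^ 2 = 1 → Y (ind K χ) = 1 := by
    refine quad_of_one Y hY fun K => ?_
    show d (ind K 1 ∘ π) = 1
    rw [hπ, ind_infl]
    have h1 : infl N K 1 = 1 := rfl
    rw [h1]
    exact hd.one _ (isOpenLinear_infl hN K 1).1
  let ε₀ : G ⧸ N →* ℂˣ := QuotientGroup.lift N e₀ (fun u hu => hNe _ hu)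
  have hε : ∀ q, ε₀ q ^ 2 = 1 := by
    intro q
    obtain ⟨u, rfl⟩ := hsurj q
    exact he2 u
  have hεS : ∀ s ∈ S, ε₀ s = -1 := by
    rintro _ ⟨x, rfl⟩
    show e₀ (x * c * x⁻¹) = -1
    rw [map_mul, map_mul, hec, map_inv, mul_comm (e₀ x), mul_inv_cancel_right]
  have hfinal := hfin (G ⧸ N) ℂˣ Y S hY hQ hG (by
      rintro _ ⟨x, rfl⟩
      show π (x * c * x⁻¹) * π (x * c * x⁻¹) = 1
      rw [← map_mul, hcsq, map_one])
    (by
      rintro _ ⟨x, rfl⟩ q
      obtain ⟨y, rfl⟩ := hsurj q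
      refine ⟨y * x, ?_⟩
      simp only
      rw [← map_inv, ← map_mul, ← map_mul]
      congr 1
      group)
    ε₀ hε hεS K ψ ⟨j, by
      refine MonoidHom.ext fun q => ?_
      obtain ⟨q, hq⟩ := q
      obtain ⟨g, rfl⟩ := hsurj q
      have hg : g ∈ U := (hmem U hNU g).1 hq
      rw [MonoidHom.pow_apply, hψ g hg hq]
      exact congrArg (fun f : U →* ℂˣ => f ⟨g, hg⟩) hj⟩
    lb (by
      refine MonoidHom.ext fun q => ?_
      obtain ⟨q, hq⟩ := q
      obtain ⟨g, rfl⟩ := hsurj q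
      rw [MonoidHom.pow_apply, hlb g ((hkW g).1 hq) hq, hl2]
      rfl)
    (by
      rintro _ ⟨g, rfl⟩ hgK
      have hgU : g * c * g⁻¹ ∈ U := (hmem U hNU _).1 hgK
      refine ⟨π (r g * g⁻¹), ⟨r g * g⁻¹, ?_, rfl⟩, ?_⟩
      · have h1 := U.inv_mem (hr1 g)
        have h2 : (g * (r g)⁻¹)⁻¹ = r g * g⁻¹ := by group
        rw [h2] at h1
        exact h1
      · rintro _ ⟨u, hu, rfl⟩
        have h1 : π u * π (g * c * g⁻¹) * (π u)⁻¹ = π (u * g * c * (u * g)⁻¹) := by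
          rw [← map_inv, ← map_mul, ← map_mul]
          congr 1
          group
        have h2 : u * g * c * (u * g)⁻¹ ∈ U := by
          have h3 := U.mul_mem (U.mul_mem hu hgU) (U.inv_mem hu)
          have h4 : u * (g * c * g⁻¹) * u⁻¹ = u * g * c * (u * g)⁻¹ := by group
          rwa [h4] at h3
        have h3 : u * g * c * (u * g)⁻¹ ∈ W := hWmem _ h2 (hcsq (u * g))
        have h4 : π (u * g * c * (u * g)⁻¹) ∈ kerS K (ψ ^ 2) := (hkW _).2 h3
        show ext (kerS K (ψ ^ 2)) lb (π u * π (g * c * g⁻¹) * (π u)⁻¹) = -1 ↔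
          π u * (π (r g * g⁻¹))⁻¹ ∈ kerS K (ψ ^ 2)
        rw [h1, ext_mem _ _ h4, hlb _ h3 h4]
        have h5 : π u * (π (r g * g⁻¹))⁻¹ = π (u * (g * (r g)⁻¹)) := by
          rw [← map_inv, ← map_mul]
          congr 1
          group
        rw [h5, hkW]
        have h6 : ((l ⟨u * g * c * (u * g)⁻¹, h3⟩ : ℂˣ) : ℂ) = -1 ↔
            l ⟨u * g * c * (u * g)⁻¹, h3⟩ = -1 := by
          constructor
          · intro h
            refine Units.ext ?_
            rw [h]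
            rfl
          · intro h
            rw [h]
            rfl
        rw [h6, hl (u * g) h3]
        show u * g * (r (u * g))⁻¹ ∈ W ↔ _
        rw [hr2 u hu g, mul_assoc])
  have hfin2 : Y (ind K ψ) = d (indF U χ) := by
    show d (ind K ψ ∘ π) = _
    rw [hπ, ind_infl]
    congr 1
    refine indF_congr ?_ _ _ ?_
    · ext g
      exact hmem U hNU g
    · intro g hg hg'
      exact hψ g hg' hg
  rw [hfin2] at hfinal
  exact hfinal

end Pool.Agent.Y514.SQ
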